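import Mathlib
import Pool.Agent.Fdf3ca.Defs
import Pool.Agent.Fdf3ca.Main2

namespace Pool.Agent.Results.MP_fdf3ca_an.Main

open Pool.Agent.Fdf3ca

/-- Question 1: the set of strongly annular functions is spaceable in `H(𝔻)`: there is a closed
infinite-dimensional subspace of `H(𝔻)` all of whose nonzero elements are strongly annular. -/
theorem result : ∃ M : Submodule ℂ (Disc → ℂ), (∀ f ∈ M, Holo f) ∧
    IsClosed {g : C(Disc, ℂ) | (g : Disc → ℂ) ∈ M} ∧
    ¬ FiniteDimensional ℂ M ∧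
    ∀ f ∈ M, f ≠ 0 → StronglyAnnular f :=
  ⟨M', holo_of_mem, isClosed_M', not_finDim', sa_of_mem⟩

end Pool.Agent.Results.MP_fdf3ca_an.Main
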